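import Pool.Agent.Lib_c77211.Mat

set_option autoImplicit false

open Quaternion Matrix Module

noncomputable section

namespace Pool.Agent.Results.MP_c77211_al.EqualDimPairs

open Pool.Agent.Lib_c77211

/-- A right subspace `M` of the space of quaternion columns is `A`-neutral if `y* A x = 0` for all
`x, y` in `M`. (A right subspace is a submodule over the opposite ring of the quaternions.) -/
def IsNeutral {n : ℕ} (A : Matrix (Fin n) (Fin n) ℍ[ℝ])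
    (M : Submodule (ℍ[ℝ])ᵐᵒᵖ (Fin n → ℍ[ℝ])) : Prop :=
  ∀ x ∈ M, ∀ y ∈ M, star y ⬝ᵥ (A *ᵥ x) = 0

/-- `M` is a maximal `(A, B)`-neutral right subspace. -/
def IsMaxNeutral {n : ℕ} (A B : Matrix (Fin n) (Fin n) ℍ[ℝ])
    (M : Submodule (ℍ[ℝ])ᵐᵒᵖ (Fin n → ℍ[ℝ])) : Prop :=
  (IsNeutral A M ∧ IsNeutral B M) ∧
    ∀ M' : Submodule (ℍ[ℝ])ᵐᵒᵖ (Fin n → ℍ[ℝ]), IsNeutral A M' → IsNeutral B M' → M ≤ M' → M' = M

theorem neutral_iff {n : ℕ} (A B : Matrix (Fin n) (Fin n) ℍ[ℝ]) (hA : A.IsHermitian)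
    (hB : B.IsHermitian) (M : Submodule (ℍ[ℝ])ᵐᵒᵖ (Fin n → ℍ[ℝ])) :
    IsNeutral A M ∧ IsNeutral B M ↔ Neutral (hform A hA) (hform B hB) M := by
  constructor
  · rintro ⟨h1, h2⟩ x hx
    exact ⟨((hform A hA).self_eq_zero_iff x).mp (h1 x hx x hx),
      ((hform B hB).self_eq_zero_iff x).mp (h2 x hx x hx)⟩
  · intro h
    exact ⟨fun x hx y hy => h.polarA y hy x hx, fun x hx y hy => h.polarB y hy x hx⟩

theorem maxNeutral_iff {n : ℕ} (A B : Matrix (Fin n) (Fin n) ℍ[ℝ]) (hA : A.IsHermitian)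
    (hB : B.IsHermitian) (M : Submodule (ℍ[ℝ])ᵐᵒᵖ (Fin n → ℍ[ℝ])) :
    IsMaxNeutral A B M ↔ MaxNeutral (hform A hA) (hform B hB) M := by
  unfold IsMaxNeutral MaxNeutral
  rw [neutral_iff A B hA hB]
  constructor
  · rintro ⟨h1, h2⟩
    refine ⟨h1, fun M' hM' hle => ?_⟩
    obtain ⟨h3, h4⟩ := (neutral_iff A B hA hB M').mpr hM'
    exact (h2 M' h3 h4 hle).le
  · rintro ⟨h1, h2⟩
    refine ⟨h1, fun M' h3 h4 hle => ?_⟩
    exact le_antisymm (h2 M' ((neutral_iff A B hA hB M').mp ⟨h3, h4⟩) hle) hle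

/-- All maximal `(A, B)`-neutral right subspaces have the same dimension if and only if some
nontrivial real combination of `A` and `B` is positive semidefinite, or, after a real invertible
linear change of the pair, `(A, B)` is congruent to a direct sum of blocks of elliptic, parabolic or
hyperbolic type. -/
theorem result (n : ℕ) (A B : Matrix (Fin n) (Fin n) ℍ[ℝ]) (hA : A.IsHermitian)
    (hB : B.IsHermitian) :
    (∀ M₁ M₂ : Submodule (ℍ[ℝ])ᵐᵒᵖ (Fin n → ℍ[ℝ]), IsMaxNeutral A B M₁ → IsMaxNeutral A B M₂ →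
      finrank (ℍ[ℝ])ᵐᵒᵖ M₁ = finrank (ℍ[ℝ])ᵐᵒᵖ M₂) ↔
    ((∃ α β : ℝ, (α ≠ 0 ∨ β ≠ 0) ∧
        ∀ x : Fin n → ℍ[ℝ], 0 ≤ (star x ⬝ᵥ ((α • A + β • B) *ᵥ x)).re) ∨
      ∃ α β γ δ : ℝ, α * δ - β * γ ≠ 0 ∧ ∃ (m : ℕ) (blk : Fin m → Block)
        (S : Matrix (Fin n) (Σ i, Fin (blk i).size) ℍ[ℝ])
        (T : Matrix (Σ i, Fin (blk i).size) (Fin n) ℍ[ℝ]), S * T = 1 ∧ T * S = 1 ∧
          Sᴴ * (α • A + β • B) * S = Matrix.blockDiagonal' (fun i => (blk i).C) ∧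
          Sᴴ * (γ • A + δ • B) * S = Matrix.blockDiagonal' (fun i => (blk i).D) ∧
          (TypeE blk ∨ (∃ a, TypeP a blk) ∨ ∃ a b, a < b ∧ TypeH a b blk)) := by
  rw [← fcanon_iff A B hA hB]
  have h1 : (∀ M₁ M₂ : Submodule (ℍ[ℝ])ᵐᵒᵖ (Fin n → ℍ[ℝ]), IsMaxNeutral A B M₁ →
      IsMaxNeutral A B M₂ → finrank (ℍ[ℝ])ᵐᵒᵖ M₁ = finrank (ℍ[ℝ])ᵐᵒᵖ M₂) ↔
      PP (hform A hA) (hform B hB) := by
    unfold PP
    simp only [maxNeutral_iff A B hA hB]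
  rw [h1, main_form]
  have h2 : SemiDef (hform A hA) (hform B hB) ↔ ∃ α β : ℝ, (α ≠ 0 ∨ β ≠ 0) ∧
      ∀ x : Fin n → ℍ[ℝ], 0 ≤ (star x ⬝ᵥ ((α • A + β • B) *ᵥ x)).re := by
    unfold SemiDef
    apply exists_congr; intro α
    apply exists_congr; intro β
    apply and_congr_right; intro _
    apply forall_congr'; intro x
    have : α * (hform A hA).q x + β * (hform B hB).q x =
        (star x ⬝ᵥ ((α • A + β • B) *ᵥ x)).re := by
      rw [← hform_comb A B hA hB α β x x]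
      rfl
    rw [this]
  rw [h2]

end Pool.Agent.Results.MP_c77211_al.EqualDimPairs
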